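import Mathlib
import Pool.Agent.X7.SigProd

/-!
# Maximal product of solutions to `σ_{n-2} = σ_n`

For every `n ≥ 2` and all positive integers `x_1 ≤ ... ≤ x_n` with
`σ_{n-2}(x_1, ..., x_n) = σ_n(x_1, ..., x_n)` we have
`x_1 x_2 ... x_n ≤ v_1 v_2 ... v_{n-1} (v_n - 1)`.
-/

namespace Pool.Agent.Results.MP_15ce38_nt.ProductBound

open Finset

/-- the `j`-th elementary symmetric polynomial of `x_1, ..., x_n` -/
def sigma (x : ℕ → ℕ) (n j : ℕ) : ℕ := ∑ s ∈ (Icc 1 n).powersetCard j, ∏ i ∈ s, x i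

/-- the recursion defining the sequence `(v_n)_{n ≥ 1}` of the problem -/
def IsV (v : ℕ → ℚ) : Prop :=
  v 1 = 1 ∧ v 2 = 2 ∧ ∀ n, 2 ≤ n →
    v (n + 1) = 1 + (∑ i ∈ Icc 1 n, 1 / v i) /
      (1 - ∑ i ∈ Icc 1 n, ∑ j ∈ Icc (i + 1) n, 1 / (v i * v j))

theorem result :
    (∃ v : ℕ → ℚ, IsV v) ∧
    ∀ v : ℕ → ℚ, IsV v → ∀ n : ℕ, 2 ≤ n → ∀ x : ℕ → ℕ,
      (∀ i, 1 ≤ i → i ≤ n → 1 ≤ x i) →
      (∀ i j, 1 ≤ i → i ≤ j → j ≤ n → x i ≤ x j) →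
      sigma x n (n - 2) = sigma x n n →
      ((∏ i ∈ Icc 1 n, x i : ℕ) : ℚ) ≤ (∏ i ∈ Icc 1 (n - 1), v i) * (v n - 1) := by
  refine ⟨⟨fun k => (X7.SigProd.vv k : ℚ), ?_, ?_, ?_⟩, ?_⟩
  · norm_num [X7.SigProd.vv, X7.SigProd.pq]
  · norm_num [X7.SigProd.vv, X7.SigProd.pq]
  · intro n _
    have hS : ∑ i ∈ Icc 1 n, 1 / (X7.SigProd.vv i : ℚ)
        = ((X7.SigProd.pq n).2 : ℚ) / ((X7.SigProd.pq n).1 : ℚ) := X7.SigProd.Sc ℚ n
    have hE : ∑ i ∈ Icc 1 n, ∑ j ∈ Icc (i + 1) n,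
        1 / ((X7.SigProd.vv i : ℚ) * (X7.SigProd.vv j : ℚ))
          = 1 - 1 / ((X7.SigProd.pq n).1 : ℚ) := by
      rw [← X7.SigProd.Ec ℚ n, ← X7.SigProd.double_eq]
      apply Finset.sum_congr rfl
      intro i _
      apply Finset.sum_congr rfl
      intro j _
      rw [one_div_mul_one_div]
    show ((X7.SigProd.vv (n + 1) : ℕ) : ℚ) = _
    rw [hS, hE, X7.SigProd.vv_succ]
    have hp : ((X7.SigProd.pq n).1 : ℚ) ≠ 0 := by exact_mod_cast (X7.SigProd.p_pos n).ne'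
    push_cast
    field_simp
    ring
  · rintro v ⟨h1, h2, h3⟩ n hn x hpos hmono hsig
    have hv := X7.SigProd.v_eq v h1 h2 h3
    have hb := X7.SigProd.prod_bound x n hn hpos hmono hsig
    obtain ⟨r, rfl⟩ : ∃ r, n = r + 1 := ⟨n - 1, by omega⟩
    simp only [Nat.add_sub_cancel] at hb ⊢
    have hprod : ∏ i ∈ Icc 1 r, v i = ((X7.SigProd.pq r).1 : ℚ) := by
      rw [← X7.SigProd.prod_vv]
      push_cast
      apply Finset.prod_congr rfl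
      intro i hi
      rw [mem_Icc] at hi
      exact hv i hi.1
    have hvn : v (r + 1) - 1 = ((X7.SigProd.pq r).2 : ℚ) := by
      rw [hv (r + 1) (by omega), X7.SigProd.vv_succ]
      push_cast
      ring
    rw [hprod, hvn]
    exact_mod_cast hb

end Pool.Agent.Results.MP_15ce38_nt.ProductBound
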